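import Pool.Agent.W469.HT.Ins

/-!
# All isolated vertices
-/

set_option autoImplicit false

namespace Pool.Agent.W469.HT.Space

open Pool.Agent.W894.HT

theorem finH_indep {A : Type} [CommRing A] (Y : List ℕ) (z : ℕ) (hz : z ∉ Y) (u : ℕ)
    (κ κ' : ℕ → ℕ) (h : ∀ w, w ≠ z → κ w = κ' w) : (finH Y u κ : A) = finH Y u κ' := by
  unfold finH
  congr 1
  refine List.map_congr_left fun y hy => ?_
  rw [h y (fun e => hz (e ▸ hy))]

theorem finH_low {A : Type} [CommRing A] (Y : List ℕ) (z : ℕ) (hz : z ∉ Y) (u : ℕ)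
    (κ : ℕ → ℕ) : (if u < z then (finH Y z (fun w => κ w + itv u z w) : A) else 0) =
      ((low u z : ℕ) : A) * finH Y u κ := by
  unfold low
  by_cases h : u < z
  · rw [if_pos h, if_pos h, Nat.cast_one, one_mul]
    unfold finH
    congr 1
    refine List.map_congr_left fun y hy => ?_
    have hyz : y ≠ z := fun e => hz (e ▸ hy)
    have h1 : itv u z y + low z y = low u y := by
      unfold itv low
      split_ifs <;> omega
    rw [← h1, add_assoc]
  · rw [if_neg h, if_neg h, Nat.cast_zero, zero_mul]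

theorem finH_perm {A : Type} [CommRing A] {Y Y' : List ℕ} (h : Y.Perm Y') :
    (finH Y : ℕ → (ℕ → ℕ) → A) = finH Y' := by
  funext u κ
  unfold finH
  exact (h.map _).prod_eq

theorem sum_flatMap' {α A : Type} [CommRing A] (L : List α) (g : α → List α) (f : α → A) :
    ((L.flatMap g).map f).sum = (L.map fun l => ((g l).map f).sum).sum := by
  induction L with
  | nil => simp
  | cons a L ih =>
    rw [List.flatMap_cons, List.map_append, List.sum_append, ih, List.map_cons, List.sum_cons]

theorem step (h : S_INS) {A : Type} [CommRing A] (φ : ℕ → ℕ → A) (Y : List ℕ) (z : ℕ)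
    (hzY : z ∉ Y) (hφ : ∀ u, φ u z = 0 ∧ φ z u = 0) (W : List ℕ) (hzW : z ∉ W) (x : ℕ)
    (hx : x ≠ z) : PS φ (finH Y) x (z :: W) = PS φ (finH (z :: Y)) x W := by
  unfold PS
  rw [show (z :: W).permutations' = W.permutations'.flatMap (List.permutations'Aux z) from rfl,
    sum_flatMap']
  congr 1
  refine List.map_congr_left fun l hl => ?_
  have hzl : z ∉ l := by
    rw [List.mem_permutations'] at hl
    intro h'
    exact hzW (hl.subset h')
  rw [h A φ (finH Y) (fun u => low u z) z (fun u => (hφ u).1) (fun u => (hφ u).2)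
    (fun u κ κ' => finH_indep Y z hzY u κ κ') (fun u κ _ => finH_low Y z hzY u κ) l x
    (fun _ => 0) hx hzl]
  rw [Nat.cast_zero, zero_mul, sub_zero]
  congr 1

theorem main (h : S_INS) : S_SPACE := by
  intro A _ φ Z V x hφ hnd hx
  have key : ∀ (Z Y : List ℕ), (∀ z ∈ Z, ∀ u, φ u z = 0 ∧ φ z u = 0) → (Z ++ V).Nodup →
      x ∉ Z ++ V → (∀ z ∈ Z, z ∉ Y) →
      PS φ (finH Y) x (Z ++ V) = PS φ (finH (Z.reverse ++ Y)) x V := by
    intro Z
    induction Z with
    | nil =>
      intro Y _ _ _ _
      rfl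
    | cons z Z ih =>
      intro Y hφ hnd hx hY
      rw [List.cons_append] at hnd hx
      rw [List.nodup_cons] at hnd
      rw [List.mem_cons, not_or] at hx
      rw [List.cons_append, step h φ Y z (hY z List.mem_cons_self) (hφ z List.mem_cons_self)
        (Z ++ V) hnd.1 x hx.1, ih (z :: Y) (fun w hw => hφ w (List.mem_cons_of_mem _ hw)) hnd.2
        hx.2 ?_]
      · rw [List.reverse_cons, List.append_assoc]
        rfl
      · intro w hw hwY
        rcases List.mem_cons.1 hwY with rfl | hwY
        · exact hnd.1 (List.mem_append_left _ hw)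
        · exact hY w (List.mem_cons_of_mem _ hw) hwY
  have h1 := key Z [] hφ hnd hx (fun _ _ => List.not_mem_nil)
  rw [List.append_nil, finH_perm (List.reverse_perm Z)] at h1
  rw [← h1]
  rfl

end Pool.Agent.W469.HT.Space
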