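import Pool.Agent.W894.HT.Defs

/-!
# Inserting an isolated vertex
-/

set_option autoImplicit false

namespace Pool.Agent.W469.HT.Ins

open Pool.Agent.W894.HT

theorem Rr_congr {A : Type} [CommRing A] (φ : ℕ → ℕ → A) (fin : ℕ → (ℕ → ℕ) → A) (z : ℕ)
    (hfin : ∀ u κ κ', (∀ w, w ≠ z → κ w = κ' w) → fin u κ = fin u κ') (l : List ℕ) :
    ∀ (x : ℕ) (κ κ' : ℕ → ℕ), (∀ w, w ≠ z → κ w = κ' w) →
      Rr φ fin x l κ = Rr φ fin x l κ' := by
  induction l with
  | nil =>
    intro x κ κ' h
    exact hfin x κ κ' h
  | cons v l ih =>
    intro x κ κ' h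
    simp only [Rr]
    rw [ih v κ κ' h, ih v _ (fun z => κ' z + itv x v z) (fun w hw => by rw [h w hw])]

theorem sum_map_add' {α A : Type} [CommRing A] (L : List α) (f g : α → A) :
    (L.map fun a => f a + g a).sum = (L.map f).sum + (L.map g).sum := by
  induction L with
  | nil => simp
  | cons a L ih =>
    simp only [List.map_cons, List.sum_cons, ih]
    ring

theorem sum_map_mul' {α A : Type} [CommRing A] (L : List α) (c : A) (f : α → A) :
    (L.map fun a => c * f a).sum = c * (L.map f).sum := by
  induction L with
  | nil => simp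
  | cons a L ih =>
    simp only [List.map_cons, List.sum_cons, ih]
    ring

theorem sum_map_ite' {α A : Type} [CommRing A] (L : List α) (p : Prop) [Decidable p] (f : α → A) :
    (L.map fun a => if p then f a else 0).sum = if p then (L.map f).sum else 0 := by
  split
  · rfl
  · simp

theorem main : S_INS := by
  intro A _ φ fin e z hz1 hz2 hfin hfin2 l
  induction l with
  | nil =>
    intro x κ hx _
    have h1 := hfin2 x κ hx
    simp only [List.permutations'Aux, List.map_cons, List.map_nil, List.sum_cons, List.sum_nil,
      Rr, hz1, zero_mul, add_zero]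
    rw [h1]
    push_cast
    ring
  | cons v l ih =>
    intro x κ hx hzl
    have hvz : v ≠ z := fun h => hzl (by rw [h]; exact List.mem_cons_self)
    have hzl' : z ∉ l := fun h => hzl (List.mem_cons_of_mem _ h)
    simp only [List.permutations'Aux, List.map_cons, List.sum_cons, List.map_map]
    have e1 : Rr φ fin x (z :: v :: l) κ =
        if x < z ∧ z < v then Rr φ fin v l (fun w => κ w + itv x v w) else 0 := by
      simp only [Rr, hz1, hz2, zero_mul, add_zero]
      by_cases h1 : x < z
      · by_cases h2 : z < v
        · rw [if_pos h1, if_pos h2, if_pos ⟨h1, h2⟩]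
          refine Rr_congr φ fin z hfin l v _ _ fun w hw => ?_
          unfold itv
          split_ifs <;> omega
        · rw [if_pos h1, if_neg h2, if_neg (fun h => h2 h.2)]
      · rw [if_neg h1, if_neg (fun h => h1 h.1)]
    have e2 : ((l.permutations'Aux z).map ((fun l' => Rr φ fin x l' κ) ∘ List.cons v)).sum =
        (if x < v then ((l.permutations'Aux z).map fun l' =>
          Rr φ fin v l' (fun w => κ w + itv x v w)).sum else 0) +
        φ x v * ((l.permutations'Aux z).map fun l' => Rr φ fin v l' κ).sum := by
      have : ((fun l' => Rr φ fin x l' κ) ∘ List.cons v) = fun l' =>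
          (if x < v then Rr φ fin v l' (fun w => κ w + itv x v w) else 0) +
            φ x v * Rr φ fin v l' κ := by
        funext l'
        rfl
      rw [this, sum_map_add', sum_map_ite', sum_map_mul']
    have e3 : ((l.permutations'Aux z).map ((fun l' => Rr φ fin x l' κ) ∘ List.cons v)).sum =
        (if x < v then Rr φ (fun u κ => ((κ z + e u : ℕ) : A) * fin u κ) v l
            (fun w => κ w + itv x v w) -
          ((κ z + itv x v z : ℕ) : A) * Rr φ fin v l (fun w => κ w + itv x v w) else 0) +
        φ x v * (Rr φ (fun u κ => ((κ z + e u : ℕ) : A) * fin u κ) v l κ -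
          (κ z : A) * Rr φ fin v l κ) := by
      rw [e2, ih v _ hvz hzl', ih v _ hvz hzl']
    rw [e1, e3]
    simp only [Rr]
    by_cases h1 : x < v
    · simp only [if_pos h1]
      by_cases h2 : x < z ∧ z < v
      · have h3 : itv x v z = 1 := by unfold itv; rw [if_pos h2]
        rw [if_pos h2, h3]
        push_cast
        ring
      · have h3 : itv x v z = 0 := by unfold itv; rw [if_neg h2]
        rw [if_neg h2, h3]
        push_cast
        ring
    · have h2 : ¬ (x < z ∧ z < v) := fun h => h1 (h.1.trans h.2)
      simp only [if_neg h1, if_neg h2]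
      ring

end Pool.Agent.W469.HT.Ins
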