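import Pool.Agent.W711.HT.Stm

set_option autoImplicit false

namespace Pool.Agent.W469.HT

open Filter Finset Topology Metric
open scoped Real
open Pool.Agent.W711.HT

theorem nat_le_exp {ε : ℝ} (hε : 0 < ε) : ∀ᶠ N : ℕ in atTop, (N : ℝ) ≤ Real.exp (ε * N) := by
  have h1 : ∀ᶠ N : ℕ in atTop, 2 / ε ^ 2 ≤ (N : ℝ) :=
    tendsto_natCast_atTop_atTop.eventually_ge_atTop _
  filter_upwards [h1] with N hN
  have h2 := Real.quadratic_le_exp_of_nonneg (x := ε * N) (by positivity)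
  have h3 : 2 ≤ ε ^ 2 * N := by
    rw [div_le_iff₀ (by positivity)] at hN
    linarith
  have h4 : (N : ℝ) ≤ (ε * N) ^ 2 / 2 := by
    have h5 : 0 ≤ (N : ℝ) := Nat.cast_nonneg N
    nlinarith
  have h5 : 0 ≤ ε * N := by positivity
  linarith

theorem kb {ρs : ℝ} (H : ∀ ε : ℝ, 0 < ε → ∃ τ : ℝ, 0 < τ ∧
    ∀ᶠ N : ℕ in atTop, ∀ d < N, ∀ x y : ℝ, |x| ≤ π → |y| ≤ τ →
    ‖Rp N d (x + y * Complex.I)‖ ≤
      Sd N d ^ 2 * Real.exp (N * (bet - c1 * min |x| ρs ^ 2 + ε))) {ε : ℝ} (hε : 0 < ε) :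
    ∃ τ : ℝ, 0 < τ ∧ ∀ᶠ N : ℕ in atTop, ∀ x y x' y' : ℝ, |x| ≤ π → |y| ≤ τ → |x'| ≤ π →
      |y'| ≤ τ → ‖Pool.Agent.W711.HT.ker N (x + y * Complex.I) (x' + y' * Complex.I)‖ ≤
        Real.exp (N * (2 * bet - c1 * min |x| ρs ^ 2 - c1 * min |x'| ρs ^ 2 + 3 * ε)) := by
  obtain ⟨τ, hτ, hN⟩ := H ε hε
  refine ⟨τ, hτ, ?_⟩
  filter_upwards [hN, nat_le_exp hε] with N h1 h2 x y x' y' hx hy hx' hy'
  unfold Pool.Agent.W711.HT.ker
  set E : ℝ := Real.exp (N * (bet - c1 * min |x| ρs ^ 2 + ε)) with hE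
  set E' : ℝ := Real.exp (N * (bet - c1 * min |x'| ρs ^ 2 + ε)) with hE'
  have hEp : 0 < E := Real.exp_pos _
  have hEp' : 0 < E' := Real.exp_pos _
  have h3 : ∀ d ∈ range N, ‖Rp N d (x + y * Complex.I) * Rp N d (x' + y' * Complex.I) /
      (Sd N d : ℂ) ^ 4‖ ≤ E * E' := by
    intro d hd
    have a1 := h1 d (mem_range.1 hd) x y hx hy
    have a2 := h1 d (mem_range.1 hd) x' y' hx' hy'
    rw [norm_div, norm_mul, norm_pow, Complex.norm_real, Real.norm_eq_abs]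
    refine div_le_of_le_mul₀ (by positivity) (by positivity) ?_
    have a3 : |Sd N d| ^ 4 = Sd N d ^ 2 * Sd N d ^ 2 := by
      rw [← sq_abs (Sd N d)]
      ring
    rw [a3]
    calc ‖Rp N d (x + y * Complex.I)‖ * ‖Rp N d (x' + y' * Complex.I)‖
        ≤ (Sd N d ^ 2 * E) * (Sd N d ^ 2 * E') := by
          gcongr
      _ = E * E' * (Sd N d ^ 2 * Sd N d ^ 2) := by ring
  calc ‖∑ d ∈ range N, Rp N d (x + y * Complex.I) * Rp N d (x' + y' * Complex.I) /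
        (Sd N d : ℂ) ^ 4‖ ≤ ∑ d ∈ range N, E * E' := norm_sum_le_of_le _ h3
    _ = N * (E * E') := by rw [sum_const, card_range, nsmul_eq_mul]
    _ ≤ Real.exp (ε * N) * (E * E') := by gcongr
    _ = Real.exp (N * (2 * bet - c1 * min |x| ρs ^ 2 - c1 * min |x'| ρs ^ 2 + 3 * ε)) := by
        rw [hE, hE', ← Real.exp_add, ← Real.exp_add]
        congr 1
        ring

theorem mem_small {ρ τ ρ' τ' : ℝ} (h : ρ ≤ ρ') (h' : τ ≤ τ') : Rc ρ τ ⊆ Rc ρ' τ' :=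
  fun _ hz => ⟨hz.1.trans_le h, hz.2.trans_le h'⟩

theorem t_KER : S_SD → S_MWK → S_BND → S_KER := by
  rintro ⟨ρ₀, c, C, s, dl, S⟩ hM ⟨ρs, hρs, hρs1, HB⟩
  obtain ⟨ρ₁, hρ₁, hρ₁₀, τ₁, hτ₁, hmw⟩ := hM ρ₀ c C s dl S
  have hπ := Real.pi_pos
  have hπ3 := Real.pi_gt_three
  have hc1 : 0 < c1 := by unfold c1; positivity
  -- positivity of `bet`
  have hbet : c1 * ρs ^ 2 ≤ bet := by
    refine le_of_forall_pos_le_add fun ε hε => ?_
    obtain ⟨τ, hτ, hN⟩ := HB ε hε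
    obtain ⟨N, hN1, hN2⟩ := (hN.and (eventually_ge_atTop 1)).exists
    have h1 := hN1 0 (by omega) ρs 0 (by rw [abs_of_pos hρs]; linarith) (by simp [hτ.le])
    have h2 : ‖Rp N 0 ((ρs : ℂ) + ((0 : ℝ) : ℂ) * Complex.I)‖ = 1 := by simp [Rp]
    have h3 : Sd N 0 = 1 := by simp [Sd]
    rw [h2, h3, abs_of_pos hρs, min_self, one_pow, one_mul] at h1
    have h4 : 0 ≤ (N : ℝ) * (bet - c1 * ρs ^ 2 + ε) := by
      by_contra hcon
      push Not at hcon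
      have := Real.exp_lt_exp.2 hcon
      rw [Real.exp_zero] at this
      linarith
    have h5 : 0 < (N : ℝ) := by exact_mod_cast hN2
    have h6 := nonneg_of_mul_nonneg_right h4 h5
    linarith
  have hbet0 : 0 < bet := lt_of_lt_of_le (by positivity) hbet
  have hC := S.hC
  have hρ₀ := S.hρ.1
  -- choice of `ρ`
  obtain ⟨ρ, hρ, hρa⟩ : ∃ ρ : ℝ, 0 < ρ ∧ (ρ ≤ 1 / 4 ∧ 3 * ρ ≤ ρ₁ ∧ 3 * ρ ≤ ρs ∧ 3 * ρ ≤ ρ₀ ∧
      ρ ^ 2 ≤ bet ∧ 1296 * C * ρ ^ 2 ≤ 1 / (128 * π)) := by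
    have h1 : ∀ᶠ ρ : ℝ in 𝓝[>] 0, ρ ≤ 1 / 4 ∧ 3 * ρ ≤ ρ₁ ∧ 3 * ρ ≤ ρs ∧ 3 * ρ ≤ ρ₀ ∧
      ρ ^ 2 ≤ bet ∧ 1296 * C * ρ ^ 2 ≤ 1 / (128 * π) := by
      have hcont : ∀ (f : ℝ → ℝ) (b : ℝ), Continuous f → f 0 < b →
          ∀ᶠ ρ : ℝ in 𝓝[>] 0, f ρ ≤ b := by
        intro f b hf hb
        have := (hf.tendsto 0).eventually_le_const hb
        exact nhdsWithin_le_nhds this
      refine (hcont (fun ρ => ρ) _ (by fun_prop) (by norm_num)).and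
        ((hcont (fun ρ => 3 * ρ) _ (by fun_prop) (by simpa using hρ₁)).and
        ((hcont (fun ρ => 3 * ρ) _ (by fun_prop) (by simpa using hρs)).and
        ((hcont (fun ρ => 3 * ρ) _ (by fun_prop) (by simpa using hρ₀)).and
        ((hcont (fun ρ => ρ ^ 2) _ (by fun_prop) (by simpa using hbet0)).and
        (hcont (fun ρ => 1296 * C * ρ ^ 2) _ (by fun_prop) (by simp; positivity))))))
    obtain ⟨ρ, h2, h3⟩ := (h1.and self_mem_nhdsWithin).exists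
    exact ⟨ρ, h3, h2⟩
  obtain ⟨hρ14, hρρ₁, hρρs, hρρ₀, hρbet, hρC⟩ := hρa
  set ε : ℝ := ρ ^ 2 / (1000 * π) with hε_def
  have hε : 0 < ε := by positivity
  obtain ⟨τε, hτε, hkb⟩ := kb HB hε
  obtain ⟨τ, hτ, hτρ, hτ1, hτ0, hτ2⟩ : ∃ τ : ℝ, 0 < τ ∧ τ ≤ ρ ∧ 3 * τ ≤ τ₁ ∧ 3 * τ ≤ ρ₀ ∧
      3 * τ ≤ τε := by
    refine ⟨min (min ρ (τ₁ / 3)) (min (ρ₀ / 3) (τε / 3)), by positivity, ?_, ?_, ?_, ?_⟩
    · exact (min_le_left _ _).trans (min_le_left _ _)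
    · have := (min_le_left (min ρ (τ₁ / 3)) (min (ρ₀ / 3) (τε / 3))).trans (min_le_right _ _)
      linarith
    · have := (min_le_right (min ρ (τ₁ / 3)) (min (ρ₀ / 3) (τε / 3))).trans (min_le_left _ _)
      linarith
    · have := (min_le_right (min ρ (τ₁ / 3)) (min (ρ₀ / 3) (τε / 3))).trans (min_le_right _ _)
      linarith
  set κ : ℝ := 20 / (128 * π) * ρ ^ 2 with hκ_def
  have hsub : Rc (3 * ρ) (3 * τ) ⊆ Rc ρ₀ ρ₀ := mem_small hρρ₀ hτ0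
  have hsub1 : Rc (3 * ρ) (3 * τ) ⊆ Rc ρ₁ τ₁ := mem_small hρρ₁ hτ1
  have h0mem : (0 : ℂ) ∈ Rc (3 * ρ) (3 * τ) := by
    refine ⟨?_, ?_⟩ <;> simp <;> positivity
  -- lower bound for `Re s(0,ψ')`
  have hlow : ∀ ψ' ∈ Rc (3 * ρ) (3 * τ),
      2 * bet - ψ'.re ^ 2 / (4 * π) - 1 / (128 * π) * ρ ^ 2 ≤ (s 0 ψ').re := by
    intro ψ' hψ'
    have h1 := S.low 0 (hsub h0mem) ψ' (hsub hψ')
    have h2 : ‖ψ'‖ ≤ 6 * ρ := by
      refine (Complex.norm_le_abs_re_add_abs_im ψ').trans ?_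
      have := hψ'.1
      have := hψ'.2
      linarith
    have h3 : C * (‖(0 : ℂ)‖ + ‖ψ'‖) ^ 4 ≤ 1 / (128 * π) * ρ ^ 2 := by
      rw [norm_zero, zero_add]
      calc C * ‖ψ'‖ ^ 4 ≤ C * (6 * ρ) ^ 4 := by gcongr
        _ = (1296 * C * ρ ^ 2) * ρ ^ 2 := by ring
        _ ≤ 1 / (128 * π) * ρ ^ 2 := by gcongr
    have h4 := (Complex.abs_re_le_norm _).trans (h1.trans h3)
    have h5 : (s 0 ψ' - (2 * bet - ((0 : ℂ) ^ 2 + ψ' ^ 2) / (4 * π))).re =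
        (s 0 ψ').re - (2 * bet - (ψ'.re ^ 2 - ψ'.im ^ 2) / (4 * π)) := by
      have e1 : ((0 : ℂ) ^ 2 + ψ' ^ 2) / (4 * π) = (((4 * π)⁻¹ : ℝ) : ℂ) * ψ' ^ 2 := by
        push_cast
        rw [zero_pow two_ne_zero, zero_add, div_eq_inv_mul]
      rw [e1]
      simp only [Complex.sub_re, Complex.re_ofReal_mul]
      have e2 : (ψ' ^ 2).re = ψ'.re ^ 2 - ψ'.im ^ 2 := by
        rw [pow_two, Complex.mul_re]
        ring
      have e3 : (2 * (bet : ℂ)).re = 2 * bet := by simp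
      rw [e2, e3]
      ring
    rw [h5] at h4
    have h6 := (abs_le.1 h4).1
    have h7 : 0 ≤ ψ'.im ^ 2 / (4 * π) := by positivity
    have h8 : (ψ'.re ^ 2 - ψ'.im ^ 2) / (4 * π) = ψ'.re ^ 2 / (4 * π) - ψ'.im ^ 2 / (4 * π) := by
      ring
    linarith
  have hre2 : ∀ ψ' ∈ Rc (3 * ρ) (3 * τ), ψ'.re ^ 2 ≤ 9 * ρ ^ 2 := by
    intro ψ' hψ'
    have h1 : |ψ'.re| ≤ 3 * ρ := hψ'.1.le
    calc ψ'.re ^ 2 = |ψ'.re| ^ 2 := (sq_abs _).symm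
      _ ≤ (3 * ρ) ^ 2 := by gcongr
      _ = 9 * ρ ^ 2 := by ring
  have hκρ : κ ≤ ρ ^ 2 := by
    rw [hκ_def]
    have : 20 / (128 * π) ≤ 1 := by
      rw [div_le_one (by positivity)]
      linarith
    calc 20 / (128 * π) * ρ ^ 2 ≤ 1 * ρ ^ 2 := by gcongr
      _ = ρ ^ 2 := one_mul _
  have hinv : ∀ t : ℝ, 0 < t → ∀ᶠ N : ℕ in atTop, 1 / (N : ℝ) ≤ t := by
    intro t ht
    exact (tendsto_one_div_atTop_nhds_zero_nat.eventually_le_const ht)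
  -- the constants in terms of `u = ρ ^ 2 / (128 π)`
  set u : ℝ := ρ ^ 2 / (128 * π) with hu_def
  have hu : 0 < u := by positivity
  have hκu : κ = 20 * u := by rw [hκ_def, hu_def]; ring
  have hεu : 3 * ε ≤ u := by
    rw [hε_def, hu_def, mul_div_assoc', div_le_div_iff₀ (by positivity) (by positivity)]
    have : 0 ≤ ρ ^ 2 * π := by positivity
    nlinarith
  have hc1u : c1 * ρ ^ 2 = 31 * u := by rw [hu_def, c1]; ring
  have hmin : ∀ x : ℝ, ρ ≤ |x| → c1 * ρ ^ 2 ≤ c1 * min |x| ρs ^ 2 := by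
    intro x hx
    have h1 : ρ ≤ min |x| ρs := le_min hx (by linarith)
    gcongr
  have hmin0 : ∀ x : ℝ, 0 ≤ c1 * min |x| ρs ^ 2 := fun x => by positivity
  refine ⟨ρ, τ, κ, c, s, dl, ?_⟩
  refine
    { hρ := ⟨hρ, hρ14⟩
      hτ := ⟨hτ, hτρ⟩
      hκ := ⟨by positivity, hκρ.trans hρbet⟩
      hc := S.hc
      san := S.san.mono (Set.prod_mono hsub hsub)
      dan := S.dan.mono (Set.prod_mono hsub hsub)
      sbd := ⟨C, fun ψ hψ ψ' hψ' => S.sbd ψ (hsub hψ) ψ' (hsub hψ')⟩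
      sym := fun ψ hψ ψ' hψ' => S.sym ψ (hsub hψ) ψ' (hsub hψ')
      dsym := fun ψ hψ ψ' hψ' => S.dsym ψ (hsub hψ) ψ' (hsub hψ')
      ev := fun ψ hψ ψ' hψ' => S.ev ψ (hsub hψ) ψ' (hsub hψ')
      zero := S.zero
      slow := ?_
      conc := fun ψ hψ ψ' hψ' => S.conc ψ (hsub hψ) ψ' (hsub hψ')
      dl0 := S.dl0
      dclose := fun ψ hψ ψ' hψ' => (S.dclose ψ (hsub hψ) ψ' (hsub hψ')).1
      dcos := fun ψ hψ ψ' hψ' => S.dcos ψ (hsub hψ) ψ' (hsub hψ')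
      scrit := fun ψ hψ ψ' hψ' => S.scrit ψ (hsub hψ) ψ' (hsub hψ')
      sder := fun ψ hψ ψ' hψ' => S.sder ψ (hsub hψ) ψ' (hsub hψ')
      mw := ?_
      far := ?_
      glob := ?_
      farg := ?_
      farb := ?_ }
  · intro ψ' hψ'
    have h1 := hlow ψ' hψ'
    have h2 := hre2 ψ' hψ'
    have h3 : ψ'.re ^ 2 / (4 * π) ≤ 9 * ρ ^ 2 / (4 * π) := by gcongr
    have h4 : 9 * ρ ^ 2 / (4 * π) = 288 * u := by rw [hu_def]; ring
    have h5 : 1 / (128 * π) * ρ ^ 2 = u := by rw [hu_def]; ring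
    have h6 : 289 * u ≤ ρ ^ 2 := by
      rw [hu_def, mul_div_assoc', div_le_iff₀ (by positivity)]
      have : 0 ≤ ρ ^ 2 := by positivity
      nlinarith
    linarith
  · intro ε' hε'
    filter_upwards [hmw ε' hε'] with N hN ψ hψ ψ' hψ'
    exact hN ψ (hsub1 hψ) ψ' (hsub1 hψ')
  · filter_upwards [hkb, hinv τε hτε] with N hN hN1 x y hx hxπ hy ψ' hψ'
    have hre : |ψ'.re| ≤ π := by
      have := hψ'.1
      linarith
    have him : |ψ'.im| ≤ τε := by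
      have := hψ'.2
      linarith
    have h1 := hN x y ψ'.re ψ'.im hxπ (hy.trans hN1) hre him
    rw [Complex.re_add_im] at h1
    refine h1.trans (Real.exp_le_exp.2 ?_)
    refine mul_le_mul_of_nonneg_left ?_ (Nat.cast_nonneg N)
    have h2 := hmin x hx
    have h3 : min |ψ'.re| ρs = |ψ'.re| := min_eq_left (by
      have := hψ'.1
      linarith)
    rw [h3, sq_abs]
    have h4 := hlow ψ' hψ'
    have h5 := hre2 ψ' hψ'
    have h6 : ψ'.re ^ 2 / (4 * π) - c1 * ψ'.re ^ 2 ≤ 9 * u := by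
      have e1 : ψ'.re ^ 2 / (4 * π) - c1 * ψ'.re ^ 2 = ψ'.re ^ 2 / (128 * π) := by
        rw [c1]
        field_simp
        ring
      rw [e1, hu_def, mul_div_assoc']
      gcongr
    have h7 : 1 / (128 * π) * ρ ^ 2 = u := by rw [hu_def]; ring
    linarith
  · intro ε' hε'
    obtain ⟨τ', hτ', hk'⟩ := kb HB (show 0 < ε' / 3 by positivity)
    filter_upwards [hk', hinv τ' hτ'] with N hN hN1 x y x' y' hx hx' hy hy'
    refine (hN x y x' y' hx (hy.trans hN1) hx' (hy'.trans hN1)).trans (Real.exp_le_exp.2 ?_)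
    refine mul_le_mul_of_nonneg_left ?_ (Nat.cast_nonneg N)
    have h1 := hmin0 x
    have h2 := hmin0 x'
    linarith
  · filter_upwards [hkb, hinv τε hτε] with N hN hN1 x y x' y' hx hρx' hx' hy hy'
    refine (hN x y x' y' hx (hy.trans hN1) hx' (hy'.trans hN1)).trans (Real.exp_le_exp.2 ?_)
    refine mul_le_mul_of_nonneg_left ?_ (Nat.cast_nonneg N)
    have h1 := hmin0 x
    have h2 := hmin x' hρx'
    linarith
  · filter_upwards [hkb, hinv τε hτε] with N hN hN1 x y x' y' hρx hx hρx' hx' hy hy'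
    refine (hN x y x' y' hx (hy.trans hN1) hx' (hy'.trans hN1)).trans (Real.exp_le_exp.2 ?_)
    refine mul_le_mul_of_nonneg_left ?_ (Nat.cast_nonneg N)
    have h1 := hmin x hρx
    have h2 := hmin x' hρx'
    linarith

end Pool.Agent.W469.HT
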