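import Pool.Agent.W711.HT.Stm

set_option autoImplicit false

namespace Pool.Agent.W469.HT.Mwk

open Filter Finset Topology Metric
open scoped Real
open Pool.Agent.W711.HT

/-! ### second order Taylor estimate -/

theorem taylor {Q Q1 Q2 : ℂ → ℂ} {B : Set ℂ} (hB : Convex ℝ B) {η : ℝ} (hη : 0 ≤ η)
    (h1 : ∀ z ∈ B, HasDerivAt Q (Q1 z) z) (h2 : ∀ z ∈ B, HasDerivAt Q1 (Q2 z) z)
    (h3 : ∀ z ∈ B, ‖Q2 z + 8 * π‖ ≤ η) {z₀ : ℂ} (hz₀ : z₀ ∈ B) (h0 : Q1 z₀ = 0) {z : ℂ}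
    (hz : z ∈ B) : ‖Q z - Q z₀ + 4 * π * (z - z₀) ^ 2‖ ≤ η * ‖z - z₀‖ ^ 2 := by
  have g1 : ∀ ζ ∈ B, ‖Q1 ζ + 8 * π * (ζ - z₀)‖ ≤ η * ‖ζ - z₀‖ := by
    intro ζ hζ
    have hd : ∀ x ∈ B, HasDerivWithinAt (fun ζ => Q1 ζ + 8 * π * (ζ - z₀)) (Q2 x + 8 * π) B x := by
      intro x hx
      have e1 : HasDerivAt (fun ζ : ℂ => 8 * (π : ℂ) * (ζ - z₀)) (8 * (π : ℂ)) x := by
        simpa using ((hasDerivAt_id x).sub_const z₀).const_mul (8 * (π : ℂ))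
      exact ((h2 x hx).add e1).hasDerivWithinAt
    have := hB.norm_image_sub_le_of_norm_hasDerivWithin_le hd h3 hz₀ hζ
    simpa [h0] using this
  set B' : Set ℂ := B ∩ closedBall z₀ ‖z - z₀‖ with hB'
  have hB'c : Convex ℝ B' := hB.inter (convex_closedBall _ _)
  have hd : ∀ x ∈ B', HasDerivWithinAt (fun ζ => Q ζ - Q z₀ + 4 * π * (ζ - z₀) ^ 2)
      (Q1 x + 8 * π * (x - z₀)) B' x := by
    intro x hx
    have e1 : HasDerivAt (fun ζ : ℂ => 4 * (π : ℂ) * (ζ - z₀) ^ 2) (8 * (π : ℂ) * (x - z₀)) x := by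
      have e2 : HasDerivAt (fun ζ : ℂ => (ζ - z₀) ^ 2) (2 * (x - z₀)) x := by
        have e3 := ((hasDerivAt_id x).sub_const z₀).fun_pow 2
        exact e3.congr_deriv (by simp)
      exact (e2.const_mul (4 * (π : ℂ))).congr_deriv (by ring)
    exact (((h1 x hx.1).sub_const (Q z₀)).add e1).hasDerivWithinAt
  have hbd : ∀ x ∈ B', ‖Q1 x + 8 * π * (x - z₀)‖ ≤ η * ‖z - z₀‖ := by
    intro x hx
    refine (g1 x hx.1).trans ?_
    have : ‖x - z₀‖ ≤ ‖z - z₀‖ := by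
      have := hx.2
      rwa [mem_closedBall, dist_eq_norm] at this
    gcongr
  have hz₀' : z₀ ∈ B' := ⟨hz₀, by simp⟩
  have hz' : z ∈ B' := ⟨hz, by rw [mem_closedBall, dist_eq_norm]⟩
  have := hB'c.norm_image_sub_le_of_norm_hasDerivWithin_le hd hbd hz₀' hz'
  simp only [sub_self, zero_pow two_ne_zero, mul_zero, add_zero, sub_zero] at this
  calc ‖Q z - Q z₀ + 4 * π * (z - z₀) ^ 2‖ ≤ η * ‖z - z₀‖ * ‖z - z₀‖ := this
    _ = η * ‖z - z₀‖ ^ 2 := by ring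

theorem reQ {Q Q1 Q2 : ℂ → ℂ} {B : Set ℂ} (hB : Convex ℝ B)
    (h1 : ∀ z ∈ B, HasDerivAt Q (Q1 z) z) (h2 : ∀ z ∈ B, HasDerivAt Q1 (Q2 z) z)
    (h3 : ∀ z ∈ B, ‖Q2 z + 8 * π‖ ≤ 2 / 5 * π) {z₀ : ℂ} (hz₀ : z₀ ∈ B) (h0 : Q1 z₀ = 0) {z : ℂ}
    (hz : z ∈ B) : (Q z).re ≤ (Q z₀).re - 18 / 5 * π * (z.re - z₀.re) ^ 2 +
      22 / 5 * π * (z.im - z₀.im) ^ 2 := by
  have h4 := taylor hB (by positivity) h1 h2 h3 hz₀ h0 hz
  have h5 := (Complex.abs_re_le_norm _).trans h4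
  have h6 := (abs_le.1 h5).2
  have e1 : (Q z - Q z₀ + 4 * π * (z - z₀) ^ 2).re =
      (Q z).re - (Q z₀).re + 4 * π * ((z.re - z₀.re) ^ 2 - (z.im - z₀.im) ^ 2) := by
    have e2 : (4 * (π : ℂ) * (z - z₀) ^ 2) = ((4 * π : ℝ) : ℂ) * (z - z₀) ^ 2 := by push_cast; ring
    rw [e2, Complex.add_re, Complex.sub_re, Complex.re_ofReal_mul, pow_two, Complex.mul_re,
      Complex.sub_re, Complex.sub_im]
    ring
  have e3 : ‖z - z₀‖ ^ 2 = (z.re - z₀.re) ^ 2 + (z.im - z₀.im) ^ 2 := by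
    rw [← Complex.normSq_eq_norm_sq, Complex.normSq_apply, Complex.sub_re, Complex.sub_im]
    ring
  rw [e1, e3] at h6
  linarith

/-! ### the potential -/

noncomputable def QQ (ψ ψ' z : ℂ) : ℂ := rrF z ψ + rrF z ψ' - 4 * ssF z

noncomputable def D1 (ψ ψ' z : ℂ) : ℂ :=
  Complex.log (2 * Complex.cos ψ + 2 * Complex.cos (2 * π * z)) +
    Complex.log (2 * Complex.cos ψ' + 2 * Complex.cos (2 * π * z)) -
    4 * Complex.log (2 * Complex.sin (π * z))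

noncomputable def D2 (p : ℂ × ℂ × ℂ) : ℂ :=
  -(4 * π * Complex.sin (2 * π * p.1)) / (2 * Complex.cos p.2.1 + 2 * Complex.cos (2 * π * p.1)) +
  -(4 * π * Complex.sin (2 * π * p.1)) / (2 * Complex.cos p.2.2 + 2 * Complex.cos (2 * π * p.1)) -
  4 * ((2 * π * Complex.cos (π * p.1)) / (2 * Complex.sin (π * p.1)))

theorem cos_quarter : Complex.cos ((π : ℂ) * (1 / 4)) = ((√2 / 2 : ℝ) : ℂ) := by
  rw [show (π : ℂ) * (1 / 4) = ((π / 4 : ℝ) : ℂ) by push_cast; ring, ← Complex.ofReal_cos,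
    Real.cos_pi_div_four]

theorem sin_quarter : Complex.sin ((π : ℂ) * (1 / 4)) = ((√2 / 2 : ℝ) : ℂ) := by
  rw [show (π : ℂ) * (1 / 4) = ((π / 4 : ℝ) : ℂ) by push_cast; ring, ← Complex.ofReal_sin,
    Real.sin_pi_div_four]

theorem cos_half : Complex.cos (2 * (π : ℂ) * (1 / 4)) = 0 := by
  rw [show 2 * (π : ℂ) * (1 / 4) = (π : ℂ) / 2 by ring, Complex.cos_pi_div_two]

theorem sin_half : Complex.sin (2 * (π : ℂ) * (1 / 4)) = 1 := by
  rw [show 2 * (π : ℂ) * (1 / 4) = (π : ℂ) / 2 by ring, Complex.sin_pi_div_two]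

theorem near : ∃ R : ℝ, 0 < R ∧ ∀ z ψ ψ' : ℂ, ‖z - 1 / 4‖ < R → ‖ψ‖ < R → ‖ψ'‖ < R →
    2 * Complex.cos ψ + 2 * Complex.cos (2 * π * z) ∈ Complex.slitPlane ∧
    2 * Complex.cos ψ' + 2 * Complex.cos (2 * π * z) ∈ Complex.slitPlane ∧
    2 * Complex.sin (π * z) ∈ Complex.slitPlane ∧
    ‖D2 (z, ψ, ψ') + 8 * π‖ ≤ 2 / 5 * π := by
  have hs2 : (0 : ℝ) < √2 / 2 := by positivity
  have hs2c : ((√2 / 2 : ℝ) : ℂ) ≠ 0 := by exact_mod_cast hs2.ne'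
  let p₀ : ℂ × ℂ × ℂ := (1 / 4, 0, 0)
  have c1 : ContinuousAt (fun p : ℂ × ℂ × ℂ =>
      2 * Complex.cos p.2.1 + 2 * Complex.cos (2 * π * p.1)) p₀ := by fun_prop
  have c2 : ContinuousAt (fun p : ℂ × ℂ × ℂ =>
      2 * Complex.cos p.2.2 + 2 * Complex.cos (2 * π * p.1)) p₀ := by fun_prop
  have c3 : ContinuousAt (fun p : ℂ × ℂ × ℂ => 2 * Complex.sin (π * p.1)) p₀ := by fun_prop
  have v1 : 2 * Complex.cos p₀.2.1 + 2 * Complex.cos (2 * π * p₀.1) = 2 := by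
    show 2 * Complex.cos 0 + 2 * Complex.cos (2 * π * (1 / 4)) = 2
    rw [cos_half, Complex.cos_zero]
    ring
  have v2 : 2 * Complex.cos p₀.2.2 + 2 * Complex.cos (2 * π * p₀.1) = 2 := by
    show 2 * Complex.cos 0 + 2 * Complex.cos (2 * π * (1 / 4)) = 2
    rw [cos_half, Complex.cos_zero]
    ring
  have v3 : 2 * Complex.sin (π * p₀.1) = ((√2 : ℝ) : ℂ) := by
    show 2 * Complex.sin (π * (1 / 4)) = _
    rw [sin_quarter]
    push_cast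
    ring
  have s1 : (2 : ℂ) ∈ Complex.slitPlane := by
    rw [show (2 : ℂ) = ((2 : ℝ) : ℂ) by norm_num, Complex.ofReal_mem_slitPlane]
    norm_num
  have s3 : ((√2 : ℝ) : ℂ) ∈ Complex.slitPlane := by
    rw [Complex.ofReal_mem_slitPlane]
    positivity
  have e1 : ∀ᶠ p in 𝓝 p₀, 2 * Complex.cos p.2.1 + 2 * Complex.cos (2 * π * p.1) ∈
      Complex.slitPlane := by
    refine c1.eventually_mem ?_
    rw [v1]
    exact Complex.isOpen_slitPlane.mem_nhds s1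
  have e2 : ∀ᶠ p in 𝓝 p₀, 2 * Complex.cos p.2.2 + 2 * Complex.cos (2 * π * p.1) ∈
      Complex.slitPlane := by
    refine c2.eventually_mem ?_
    rw [v2]
    exact Complex.isOpen_slitPlane.mem_nhds s1
  have e3 : ∀ᶠ p in 𝓝 p₀, 2 * Complex.sin (π * p.1) ∈ Complex.slitPlane := by
    refine c3.eventually_mem ?_
    rw [v3]
    exact Complex.isOpen_slitPlane.mem_nhds s3
  have c4 : ContinuousAt D2 p₀ := by
    unfold D2
    refine ContinuousAt.sub (ContinuousAt.add (ContinuousAt.div (by fun_prop) c1 ?_)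
      (ContinuousAt.div (by fun_prop) c2 ?_))
      (ContinuousAt.mul continuousAt_const (ContinuousAt.div (by fun_prop) c3 ?_))
    · rw [v1]; norm_num
    · rw [v2]; norm_num
    · rw [v3]
      exact_mod_cast (show (√2 : ℝ) ≠ 0 by positivity)
  have v4 : D2 p₀ + 8 * π = 0 := by
    show -(4 * π * Complex.sin (2 * π * (1 / 4))) / (2 * Complex.cos 0 +
      2 * Complex.cos (2 * π * (1 / 4))) + -(4 * π * Complex.sin (2 * π * (1 / 4))) /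
      (2 * Complex.cos 0 + 2 * Complex.cos (2 * π * (1 / 4))) -
      4 * ((2 * π * Complex.cos (π * (1 / 4))) / (2 * Complex.sin (π * (1 / 4)))) + 8 * π = 0
    rw [cos_half, sin_half, cos_quarter, sin_quarter, Complex.cos_zero]
    have : 2 * (π : ℂ) * ((√2 / 2 : ℝ) : ℂ) / (2 * ((√2 / 2 : ℝ) : ℂ)) = π := by
      field_simp
    rw [this]
    ring
  have e4 : ∀ᶠ p in 𝓝 p₀, ‖D2 p + 8 * π‖ ≤ 2 / 5 * π := by
    have c5 : ContinuousAt (fun p => ‖D2 p + 8 * π‖) p₀ := (c4.add continuousAt_const).norm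
    refine c5.eventually_le_const ?_
    show ‖D2 p₀ + 8 * π‖ < _
    rw [v4, norm_zero]
    positivity
  obtain ⟨R, hR, h⟩ := Metric.eventually_nhds_iff.1 (e1.and (e2.and (e3.and e4)))
  refine ⟨R, hR, fun z ψ ψ' hz hψ hψ' => ?_⟩
  have hd : dist (z, ψ, ψ') p₀ < R := by
    rw [Prod.dist_eq, Prod.dist_eq, dist_eq_norm, dist_zero_right, dist_zero_right]
    exact max_lt hz (max_lt hψ hψ')
  obtain ⟨a1, a2, a3, a4⟩ := h hd
  exact ⟨a1, a2, a3, a4⟩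

theorem hasDerivAt_D1 {z ψ ψ' : ℂ}
    (h1 : 2 * Complex.cos ψ + 2 * Complex.cos (2 * π * z) ∈ Complex.slitPlane)
    (h2 : 2 * Complex.cos ψ' + 2 * Complex.cos (2 * π * z) ∈ Complex.slitPlane)
    (h3 : 2 * Complex.sin (π * z) ∈ Complex.slitPlane) :
    HasDerivAt (D1 ψ ψ') (D2 (z, ψ, ψ')) z := by
  have l1 : HasDerivAt (fun z : ℂ => 2 * (π : ℂ) * z) (2 * (π : ℂ)) z := by
    simpa using (hasDerivAt_id z).const_mul (2 * (π : ℂ))
  have l2 : HasDerivAt (fun z : ℂ => (π : ℂ) * z) (π : ℂ) z := by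
    simpa using (hasDerivAt_id z).const_mul (π : ℂ)
  have a1 : ∀ φ : ℂ, HasDerivAt (fun z => 2 * Complex.cos φ + 2 * Complex.cos (2 * π * z))
      (-(4 * π * Complex.sin (2 * π * z))) z := by
    intro φ
    exact (((l1.ccos).const_mul 2).const_add (2 * Complex.cos φ)).congr_deriv (by ring)
  have a2 : HasDerivAt (fun z => 2 * Complex.sin (π * z)) (2 * π * Complex.cos (π * z)) z := by
    exact ((l2.csin).const_mul 2).congr_deriv (by ring)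
  exact (((a1 ψ).clog h1).add ((a1 ψ').clog h2)).sub ((a2.clog h3).const_mul 4)

/-! ### absorbing a small remainder -/

theorem nat_le_exp {ε : ℝ} (hε : 0 < ε) : ∀ᶠ N : ℕ in atTop, (N : ℝ) ≤ Real.exp (ε * N) := by
  have h1 : ∀ᶠ N : ℕ in atTop, 2 / ε ^ 2 ≤ (N : ℝ) :=
    tendsto_natCast_atTop_atTop.eventually_ge_atTop _
  filter_upwards [h1] with N hN
  have h2 := Real.quadratic_le_exp_of_nonneg (x := ε * N) (by positivity)
  have h3 : 2 ≤ ε ^ 2 * N := by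
    rw [div_le_iff₀ (by positivity)] at hN
    linarith
  have h4 : (N : ℝ) ≤ (ε * N) ^ 2 / 2 := by
    have h5 : 0 ≤ (N : ℝ) := Nat.cast_nonneg N
    nlinarith
  have h5 : 0 ≤ ε * N := by positivity
  linarith

theorem absorb {W T : ℕ → ℂ} {L κ : ℝ} (hL : 0 < L) (hκ : 0 < κ)
    (hW : Tendsto (fun N : ℕ => Real.log ‖W N‖ / N) atTop (𝓝 L))
    (hT : ∀ᶠ N : ℕ in atTop, ‖T N‖ ≤ N * Real.exp (N * (L - κ))) :
    Tendsto (fun N : ℕ => Real.log ‖W N + T N‖ / N) atTop (𝓝 L) := by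
  have h1 : ∀ᶠ N : ℕ in atTop, max 0 (L - κ / 4) < Real.log ‖W N‖ / N :=
    hW.eventually_const_lt (max_lt hL (by linarith))
  have hbig : ∀ᶠ N : ℕ in atTop, 4 / κ * Real.log 2 ≤ (N : ℝ) :=
    tendsto_natCast_atTop_atTop.eventually_ge_atTop _
  have key : ∀ᶠ N : ℕ in atTop, ‖Real.log ‖W N + T N‖ / N - Real.log ‖W N‖ / N‖ ≤
      Real.log 2 / N := by
    filter_upwards [h1, hT, nat_le_exp (show 0 < κ / 4 by positivity), hbig,
      eventually_gt_atTop 0] with N h1 h2 h3 h4 h5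
    have hN : (0 : ℝ) < N := by exact_mod_cast h5
    have h6 : (N : ℝ) * (L - κ / 4) < Real.log ‖W N‖ := by
      have := (le_max_right _ _).trans_lt h1
      rw [lt_div_iff₀ hN] at this
      linarith
    have h7 : 0 < Real.log ‖W N‖ := by
      have := (le_max_left _ _).trans_lt h1
      rw [lt_div_iff₀ hN] at this
      linarith
    have h8 : 0 < ‖W N‖ := by
      by_contra hcon
      have : ‖W N‖ = 0 := le_antisymm (not_lt.1 hcon) (norm_nonneg _)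
      rw [this, Real.log_zero] at h7
      exact lt_irrefl _ h7
    have h9 : Real.exp (N * (L - κ / 4)) ≤ ‖W N‖ := by
      rw [← Real.exp_log h8]
      exact Real.exp_le_exp.2 h6.le
    have h10 : 2 * ‖T N‖ ≤ ‖W N‖ := by
      have e2 : (2 : ℝ) ≤ Real.exp (κ / 4 * N) := by
        rw [← Real.log_le_iff_le_exp (by norm_num)]
        rw [div_mul_eq_mul_div, div_le_iff₀ hκ] at h4
        linarith
      calc 2 * ‖T N‖ ≤ Real.exp (κ / 4 * N) * (Real.exp (κ / 4 * N) *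
            Real.exp (N * (L - κ))) := by
            have : ‖T N‖ ≤ Real.exp (κ / 4 * N) * Real.exp (N * (L - κ)) :=
              h2.trans (by gcongr)
            gcongr
        _ = Real.exp (N * (L - κ / 2)) := by
            rw [← Real.exp_add, ← Real.exp_add]
            congr 1
            ring
        _ ≤ Real.exp (N * (L - κ / 4)) := by
            refine Real.exp_le_exp.2 (mul_le_mul_of_nonneg_left ?_ hN.le)
            linarith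
        _ ≤ ‖W N‖ := h9
    have h11 : ‖W N‖ / 2 ≤ ‖W N + T N‖ := by
      have := norm_sub_norm_le (W N) (-T N)
      rw [norm_neg, sub_neg_eq_add] at this
      linarith
    have h12 : ‖W N + T N‖ ≤ 2 * ‖W N‖ := by
      have := norm_add_le (W N) (T N)
      have := norm_nonneg (T N)
      linarith
    have h13 : 0 < ‖W N + T N‖ := lt_of_lt_of_le (by positivity) h11
    rw [← sub_div, norm_div, Real.norm_of_nonneg hN.le]
    gcongr
    rw [Real.norm_eq_abs, abs_le]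
    constructor
    · have := Real.log_le_log (by positivity) h11
      rw [Real.log_div h8.ne' two_ne_zero] at this
      linarith
    · have := Real.log_le_log h13 h12
      rw [Real.log_mul two_ne_zero h8.ne'] at this
      linarith
  have h2 : Tendsto (fun N : ℕ => Real.log 2 / (N : ℝ)) atTop (𝓝 0) :=
    tendsto_const_div_atTop_nhds_zero_nat _
  have h3 : Tendsto (fun N : ℕ => Real.log ‖W N + T N‖ / N - Real.log ‖W N‖ / N) atTop (𝓝 0) :=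
    squeeze_zero_norm' key h2
  have h4 := h3.add hW
  simpa using h4

/-! ### uniform convergence with a parameter -/

theorem unif_param {F : ℂ × ℂ → ℂ} {K1 K2 : Set ℂ} (hK : IsCompact (K1 ×ˢ K2))
    (hF : ContinuousOn F (K1 ×ˢ K2)) {p : ℕ → ℂ} {p₀ : ℂ} (hp : ∀ N, p N ∈ K2) (hp0 : p₀ ∈ K2)
    (ht : Tendsto p atTop (𝓝 p₀)) {ε : ℝ} (hε : 0 < ε) :
    ∀ᶠ N : ℕ in atTop, ∀ z ∈ K1, ‖F (z, p N) - F (z, p₀)‖ < ε := by
  have h1 := hK.uniformContinuousOn_of_continuous hF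
  obtain ⟨δ, hδ, h2⟩ := Metric.uniformContinuousOn_iff.1 h1 ε hε
  have h3 : ∀ᶠ N : ℕ in atTop, dist (p N) p₀ < δ := (Metric.tendsto_nhds.1 ht) δ hδ
  filter_upwards [h3] with N hN z hz
  rw [← dist_eq_norm]
  refine h2 _ ⟨hz, hp N⟩ _ ⟨hz, hp0⟩ ?_
  rw [Prod.dist_eq, dist_self]
  exact max_lt hδ hN

theorem Sd_pos {N d : ℕ} (h : d < N) : 0 < Sd N d := by
  unfold Sd
  refine Finset.prod_pos fun k hk => ?_
  have hk' : k < d := Finset.mem_range.1 hk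
  have hN : (0 : ℝ) < N := by exact_mod_cast (by omega : 0 < N)
  have h1 : 0 < π * (k + 1) / N := by positivity
  have h2 : π * (k + 1) / N < π := by
    rw [div_lt_iff₀ hN]
    have : ((k : ℝ) + 1) < N := by exact_mod_cast (by omega : k + 1 < N)
    have := Real.pi_pos
    nlinarith
  have := Real.sin_pos_of_pos_of_lt_pi h1 h2
  positivity

theorem norm_le_two {z : ℂ} {t : ℝ} (h1 : |z.re| ≤ t) (h2 : |z.im| ≤ t) : ‖z‖ ≤ 2 * t := by
  have := Complex.norm_le_abs_re_add_abs_im z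
  linarith

theorem re_im_eq (z : ℂ) : z = (z.re : ℂ) + (z.im : ℂ) * Complex.I := (Complex.re_add_im z).symm

/-- one term far from the window -/
theorem term_le {N d : ℕ} (hd : d < N) {bk : ℝ} {ψ ψ' : ℂ}
    (h1 : ‖Rp N d ψ‖ ≤ Sd N d ^ 2 * Real.exp (N * bk))
    (h2 : ‖Rp N d ψ'‖ ≤ Sd N d ^ 2 * Real.exp (N * bk)) :
    ‖Rp N d ψ * Rp N d ψ' / (Sd N d : ℂ) ^ 4‖ ≤ Real.exp (N * (2 * bk)) := by
  have hS := Sd_pos hd
  rw [norm_div, norm_mul, norm_pow, Complex.norm_real, Real.norm_of_nonneg hS.le,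
    div_le_iff₀ (by positivity)]
  calc ‖Rp N d ψ‖ * ‖Rp N d ψ'‖ ≤ (Sd N d ^ 2 * Real.exp (N * bk)) *
        (Sd N d ^ 2 * Real.exp (N * bk)) := by gcongr
    _ = Real.exp (N * (2 * bk)) * Sd N d ^ 4 := by
        rw [show (N : ℝ) * (2 * bk) = N * bk + N * bk by ring, Real.exp_add]
        ring

/-! ### the window -/

theorem window {ρ : ℝ} {r : ℕ → ℂ × ℂ → ℂ} {sn : ℕ → ℂ → ℂ} {R w : ℝ} (hLS : S_LAPSUM)
    (hρR : R < ρ) (hw : 0 < w) (hwR : w ≤ R / 2) (hw16 : w ≤ 1 / 16)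
    (hr : ∀ᶠ N : ℕ in atTop, DifferentiableOn ℂ (r N) (ball (1 / 4) ρ ×ˢ ball 0 ρ))
    (hs : ∀ᶠ N : ℕ in atTop, DifferentiableOn ℂ (sn N) (ball (1 / 4) ρ))
    (hru : TendstoUniformlyOn r (fun p => rrF p.1 p.2) atTop (ball (1 / 4) ρ ×ˢ ball 0 ρ))
    (hsu : TendstoUniformlyOn sn ssF atTop (ball (1 / 4) ρ))
    (hrr : DifferentiableOn ℂ (fun p : ℂ × ℂ => rrF p.1 p.2) (ball (1 / 4) ρ ×ˢ ball 0 ρ))
    (hQ1 : ∀ z ∈ ball (1 / 4 : ℂ) ρ, ∀ ψ ∈ ball (0 : ℂ) ρ, ∀ ψ' ∈ ball (0 : ℂ) ρ,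
      HasDerivAt (QQ ψ ψ') (D1 ψ ψ' z) z)
    (hQ2 : ∀ z ∈ ball (1 / 4 : ℂ) ρ, ∀ ψ ∈ ball (0 : ℂ) ρ, ∀ ψ' ∈ ball (0 : ℂ) ρ,
      HasDerivAt (D1 ψ ψ') (D2 (z, ψ, ψ')) z ∧ ‖D2 (z, ψ, ψ') + 8 * π‖ ≤ 2 / 5 * π)
    {ψ ψ' : ℕ → ℂ} {φ φ' z₀ : ℂ} (hψ : ∀ N, ψ N ∈ closedBall (0 : ℂ) R)
    (hψ' : ∀ N, ψ' N ∈ closedBall (0 : ℂ) R) (hφ : φ ∈ closedBall (0 : ℂ) R)
    (hφ' : φ' ∈ closedBall (0 : ℂ) R) (htφ : Tendsto ψ atTop (𝓝 φ))
    (htφ' : Tendsto ψ' atTop (𝓝 φ')) (hz₀ : ‖z₀ - 1 / 4‖ ≤ w / 20) (hcr : D1 φ φ' z₀ = 0) :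
    Tendsto (fun N : ℕ => Real.log ‖∑ d ∈ Ico (⌈(1 / 4 - w) * N⌉₊) (⌊(1 / 4 + w) * N⌋₊),
      Complex.exp (N * (r N ((d : ℂ) / N, ψ N) + r N ((d : ℂ) / N, ψ' N) -
        4 * sn N ((d : ℂ) / N)))‖ / N) atTop (𝓝 (QQ φ φ' z₀).re) := by
  have hsubc : closedBall (1 / 4 : ℂ) R ⊆ ball (1 / 4) ρ := closedBall_subset_ball hρR
  have hsubc0 : closedBall (0 : ℂ) R ⊆ ball 0 ρ := closedBall_subset_ball hρR
  have hsub : ball (1 / 4 : ℂ) R ⊆ ball (1 / 4) ρ := ball_subset_ball hρR.le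
  have hB : Convex ℝ (ball (1 / 4 : ℂ) R) := convex_ball _ _
  have hz₀B : z₀ ∈ ball (1 / 4 : ℂ) R := by
    rw [mem_ball, dist_eq_norm]
    linarith
  have hφρ := hsubc0 hφ
  have hφρ' := hsubc0 hφ'
  have dQ : ∀ z ∈ ball (1 / 4 : ℂ) R, HasDerivAt (QQ φ φ') (D1 φ φ' z) z :=
    fun z hz => hQ1 z (hsub hz) _ hφρ _ hφρ'
  have dD : ∀ z ∈ ball (1 / 4 : ℂ) R, HasDerivAt (D1 φ φ') (D2 (z, φ, φ')) z :=
    fun z hz => (hQ2 z (hsub hz) _ hφρ _ hφρ').1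
  have dB : ∀ z ∈ ball (1 / 4 : ℂ) R, ‖D2 (z, φ, φ') + 8 * π‖ ≤ 2 / 5 * π :=
    fun z hz => (hQ2 z (hsub hz) _ hφρ _ hφρ').2
  have key : ∀ z ∈ ball (1 / 4 : ℂ) R, (QQ φ φ' z).re ≤ (QQ φ φ' z₀).re -
      18 / 5 * π * (z.re - z₀.re) ^ 2 + 22 / 5 * π * (z.im - z₀.im) ^ 2 :=
    fun z hz => reQ hB dQ dD dB hz₀B hcr hz
  have hre : |z₀.re - 1 / 4| ≤ w / 20 := by
    have h1 := (Complex.abs_re_le_norm (z₀ - 1 / 4)).trans hz₀
    have h2 : (z₀ - 1 / 4).re = z₀.re - 1 / 4 := by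
      rw [Complex.sub_re]
      norm_num
    rwa [h2] at h1
  have him : |z₀.im| ≤ w / 20 := by
    have h1 := (Complex.abs_im_le_norm (z₀ - 1 / 4)).trans hz₀
    have h2 : (z₀ - 1 / 4).im = z₀.im := by
      rw [Complex.sub_im]
      norm_num
    rwa [h2] at h1
  rw [abs_le] at hre him
  have hpi := Real.pi_pos
  have hmem : ∀ x y : ℝ, 1 / 4 - w ≤ x → x ≤ 1 / 4 + w → |y| ≤ w / 2 →
      (x : ℂ) + y * Complex.I ∈ ball (1 / 4 : ℂ) R := by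
    intro x y h1 h2 h3
    rw [mem_ball, dist_eq_norm]
    have h4 := Complex.norm_le_abs_re_add_abs_im ((x : ℂ) + y * Complex.I - 1 / 4)
    have h5 : ((x : ℂ) + y * Complex.I - 1 / 4).re = x - 1 / 4 := by
      simp
    have h6 : ((x : ℂ) + y * Complex.I - 1 / 4).im = y := by
      simp
    rw [h5, h6] at h4
    have h7 : |x - 1 / 4| ≤ w := abs_le.2 ⟨by linarith, by linarith⟩
    linarith
  have hre' : ∀ x y : ℝ, ((x : ℂ) + y * Complex.I).re = x := by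
    intro x y
    simp
  have him' : ∀ x y : ℝ, ((x : ℂ) + y * Complex.I).im = y := by
    intro x y
    simp
  have hderiv : ∀ z ∈ ball (1 / 4 : ℂ) R, deriv (QQ φ φ') z = D1 φ φ' z :=
    fun z hz => (dQ z hz).deriv
  refine hLS (fun N z => r N (z, ψ N) + r N (z, ψ' N) - 4 * sn N z) (QQ φ φ')
    (ball (1 / 4 : ℂ) R) (1 / 4 - w) (1 / 4 + w) (w / 2) z₀
    (fun N => ⌈(1 / 4 - w) * N⌉₊) (fun N => ⌊(1 / 4 + w) * N⌋₊) isOpen_ball ?_ ?_ ?_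
    hmem (by linarith) ?_ ?_ (by linarith) (by linarith) (abs_lt.2 ⟨by linarith, by linarith⟩)
    ((hderiv z₀ hz₀B).trans hcr) ?_ ?_ ?_ ?_
  · filter_upwards [hr, hs] with N h1 h2
    have h3 : ∀ χ ∈ closedBall (0 : ℂ) R,
        DifferentiableOn ℂ (fun z : ℂ => r N (z, χ)) (ball (1 / 4 : ℂ) R) := by
      intro χ hχ
      refine h1.comp (f := fun z : ℂ => (z, χ)) (by fun_prop) ?_
      intro z hz
      exact ⟨hsub hz, hsubc0 hχ⟩
    exact ((h3 _ (hψ N)).add (h3 _ (hψ' N))).sub ((h2.mono hsub).const_mul 4)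
  · intro z hz
    exact (dQ z hz).differentiableAt.differentiableWithinAt
  · rw [Metric.tendstoUniformlyOn_iff]
    intro ε hε
    have hcomp : IsCompact (closedBall (1 / 4 : ℂ) R ×ˢ closedBall (0 : ℂ) R) :=
      (isCompact_closedBall _ _).prod (isCompact_closedBall _ _)
    have hcont : ContinuousOn (fun p : ℂ × ℂ => rrF p.1 p.2)
        (closedBall (1 / 4 : ℂ) R ×ˢ closedBall (0 : ℂ) R) :=
      hrr.continuousOn.mono (Set.prod_mono hsubc hsubc0)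
    have e1 := unif_param hcomp hcont hψ hφ htφ (show 0 < ε / 8 by positivity)
    have e2 := unif_param hcomp hcont hψ' hφ' htφ' (show 0 < ε / 8 by positivity)
    have e3 := (Metric.tendstoUniformlyOn_iff.1 hru) (ε / 8) (by positivity)
    have e4 := (Metric.tendstoUniformlyOn_iff.1 hsu) (ε / 16) (by positivity)
    filter_upwards [e1, e2, e3, e4] with N f1 f2 f3 f4 z hz
    have g1 := f1 z (ball_subset_closedBall hz)
    have g2 := f2 z (ball_subset_closedBall hz)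
    have g3 := f3 (z, ψ N) ⟨hsub hz, hsubc0 (hψ N)⟩
    have g4 := f3 (z, ψ' N) ⟨hsub hz, hsubc0 (hψ' N)⟩
    have g5 := f4 z (hsub hz)
    rw [dist_eq_norm] at g3 g4 g5 ⊢
    simp only at g1 g2 g3 g4
    have e : QQ φ φ' z - (r N (z, ψ N) + r N (z, ψ' N) - 4 * sn N z) =
        -(rrF z (ψ N) - rrF z φ) + -(rrF z (ψ' N) - rrF z φ') +
        (rrF z (ψ N) - r N (z, ψ N)) + (rrF z (ψ' N) - r N (z, ψ' N)) +
        -(4 * (ssF z - sn N z)) := by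
      unfold QQ
      ring
    rw [e]
    refine (norm_add_le _ _).trans_lt ?_
    have t1 := norm_add_le (-(rrF z (ψ N) - rrF z φ) + -(rrF z (ψ' N) - rrF z φ') +
        (rrF z (ψ N) - r N (z, ψ N))) (rrF z (ψ' N) - r N (z, ψ' N))
    have t2 := norm_add_le (-(rrF z (ψ N) - rrF z φ) + -(rrF z (ψ' N) - rrF z φ'))
        (rrF z (ψ N) - r N (z, ψ N))
    have t3 := norm_add_le (-(rrF z (ψ N) - rrF z φ)) (-(rrF z (ψ' N) - rrF z φ'))
    rw [norm_neg, norm_neg] at t3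
    have t4 : ‖-(4 * (ssF z - sn N z))‖ = 4 * ‖ssF z - sn N z‖ := by
      rw [norm_neg, norm_mul]
      norm_num
    rw [t4]
    linarith
  · have hc : (0 : ℝ) ≤ 1 / 4 - w := by linarith
    exact (tendsto_nat_ceil_mul_div_atTop hc).comp tendsto_natCast_atTop_atTop
  · have hc : (0 : ℝ) ≤ 1 / 4 + w := by linarith
    exact (tendsto_nat_floor_mul_div_atTop hc).comp tendsto_natCast_atTop_atTop
  · have h1 : deriv (QQ φ φ') =ᶠ[𝓝 z₀] D1 φ φ' := by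
      filter_upwards [isOpen_ball.mem_nhds hz₀B] with z hz
      exact hderiv z hz
    rw [h1.deriv_eq, (dD z₀ hz₀B).deriv]
    have h2 := (Complex.abs_re_le_norm _).trans (dB z₀ hz₀B)
    have h3 : (D2 (z₀, φ, φ') + 8 * π).re = (D2 (z₀, φ, φ')).re + 8 * π := by
      rw [Complex.add_re, show (8 * (π : ℂ)) = ((8 * π : ℝ) : ℂ) by push_cast; ring,
        Complex.ofReal_re]
    rw [h3] at h2
    have h4 := (abs_le.1 h2).2
    linarith
  · intro x h1 h2 h3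
    have h4 := key _ (hmem x z₀.im h1 h2 (abs_le.2 ⟨by linarith, by linarith⟩))
    rw [hre', him', sub_self] at h4
    have h5 : 0 < (x - z₀.re) ^ 2 := by
      have : x - z₀.re ≠ 0 := sub_ne_zero.2 h3
      positivity
    have h6 : 0 < 18 / 5 * π * (x - z₀.re) ^ 2 := by positivity
    linarith
  · intro y hy
    have hy' := abs_le.1 hy
    have h1 := key _ (hmem (1 / 4 - w) y le_rfl (by linarith) hy)
    have h2 := key _ (hmem (1 / 4 + w) y (by linarith) le_rfl hy)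
    rw [hre', him'] at h1 h2
    have h3 : (19 / 20 * w) ^ 2 ≤ (1 / 4 - w - z₀.re) ^ 2 := by
      rw [sq_le_sq, abs_of_pos (by positivity)]
      rw [le_abs]
      right
      linarith
    have h4 : (19 / 20 * w) ^ 2 ≤ (1 / 4 + w - z₀.re) ^ 2 := by
      rw [sq_le_sq, abs_of_pos (by positivity)]
      rw [le_abs]
      left
      linarith
    have h5 : (y - z₀.im) ^ 2 ≤ (11 / 20 * w) ^ 2 := by
      rw [sq_le_sq, abs_of_pos (show 0 < 11 / 20 * w by positivity), abs_le]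
      constructor <;> linarith
    have h6 : 18 / 5 * π * (19 / 20 * w) ^ 2 ≤ 18 / 5 * π * (1 / 4 - w - z₀.re) ^ 2 := by gcongr
    have h7 : 18 / 5 * π * (19 / 20 * w) ^ 2 ≤ 18 / 5 * π * (1 / 4 + w - z₀.re) ^ 2 := by gcongr
    have h8 : 22 / 5 * π * (y - z₀.im) ^ 2 ≤ 22 / 5 * π * (11 / 20 * w) ^ 2 := by gcongr
    have h9 : 0 < π * w ^ 2 := by positivity
    have h10 : 22 / 5 * π * (11 / 20 * w) ^ 2 < 18 / 5 * π * (19 / 20 * w) ^ 2 := by nlinarith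
    constructor <;> linarith
  · intro x h1 h2
    have hh : |w / 2| ≤ w / 2 := by rw [abs_of_pos (by positivity)]
    have hh' : |-(w / 2)| ≤ w / 2 := by rw [abs_neg, abs_of_pos (by positivity)]
    have h3 := key _ (hmem x (w / 2) h1 h2 hh)
    have h4 := key _ (hmem x (-(w / 2)) h1 h2 hh')
    rw [hre', him'] at h3 h4
    have e1 : (x : ℂ) - ((w / 2 : ℝ) : ℂ) * Complex.I = (x : ℂ) + ((-(w / 2) : ℝ) : ℂ) *
        Complex.I := by
      push_cast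
      ring
    rw [e1]
    have h5 : (w / 2 - z₀.im) ^ 2 ≤ (11 / 20 * w) ^ 2 := by
      rw [sq_le_sq, abs_of_pos (show 0 < 11 / 20 * w by positivity), abs_le]
      constructor <;> linarith
    have h6 : (-(w / 2) - z₀.im) ^ 2 ≤ (11 / 20 * w) ^ 2 := by
      rw [sq_le_sq, abs_of_pos (show 0 < 11 / 20 * w by positivity), abs_le]
      constructor <;> linarith
    have h7 : 22 / 5 * π * (w / 2 - z₀.im) ^ 2 ≤ 22 / 5 * π * (11 / 20 * w) ^ 2 := by gcongr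
    have h8 : 22 / 5 * π * (-(w / 2) - z₀.im) ^ 2 ≤ 22 / 5 * π * (11 / 20 * w) ^ 2 := by gcongr
    have h9 : 0 ≤ 18 / 5 * π * (x - z₀.re) ^ 2 := by positivity
    have h10 : 22 / 5 * π * (11 / 20 * w) ^ 2 < 2 * π * (w / 2) := by
      have : 22 / 5 * (11 / 20 * w) ^ 2 < 2 * (w / 2) := by nlinarith
      nlinarith
    constructor <;> linarith

/-- the kernel along a sequence -/
theorem seq {ρ : ℝ} {r : ℕ → ℂ × ℂ → ℂ} {sn : ℕ → ℂ → ℂ} {R w κ τ : ℝ} (hLS : S_LAPSUM)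
    (hρR : R < ρ) (hw : 0 < w) (hwR : w ≤ R / 2) (hw16 : w ≤ 1 / 16)
    (hr : ∀ᶠ N : ℕ in atTop, DifferentiableOn ℂ (r N) (ball (1 / 4) ρ ×ˢ ball 0 ρ))
    (hs : ∀ᶠ N : ℕ in atTop, DifferentiableOn ℂ (sn N) (ball (1 / 4) ρ))
    (hE : ∀ᶠ N : ℕ in atTop, ∀ d : ℕ, |(d : ℝ) / N - 1 / 4| < ρ →
      (∀ ψ ∈ ball (0 : ℂ) ρ, Rp N d ψ = Complex.exp (N * r N ((d : ℂ) / N, ψ))) ∧
      (Sd N d : ℂ) = Complex.exp (N * sn N ((d : ℂ) / N)))
    (hru : TendstoUniformlyOn r (fun p => rrF p.1 p.2) atTop (ball (1 / 4) ρ ×ˢ ball 0 ρ))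
    (hsu : TendstoUniformlyOn sn ssF atTop (ball (1 / 4) ρ))
    (hrr : DifferentiableOn ℂ (fun p : ℂ × ℂ => rrF p.1 p.2) (ball (1 / 4) ρ ×ˢ ball 0 ρ))
    (hQ1 : ∀ z ∈ ball (1 / 4 : ℂ) ρ, ∀ ψ ∈ ball (0 : ℂ) ρ, ∀ ψ' ∈ ball (0 : ℂ) ρ,
      HasDerivAt (QQ ψ ψ') (D1 ψ ψ' z) z)
    (hQ2 : ∀ z ∈ ball (1 / 4 : ℂ) ρ, ∀ ψ ∈ ball (0 : ℂ) ρ, ∀ ψ' ∈ ball (0 : ℂ) ρ,
      HasDerivAt (D1 ψ ψ') (D2 (z, ψ, ψ')) z ∧ ‖D2 (z, ψ, ψ') + 8 * π‖ ≤ 2 / 5 * π)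
    (hκ : 0 < κ)
    (hF : ∀ᶠ N : ℕ in atTop, ∀ d < N, w / 2 ≤ |(d : ℝ) / N - 1 / 4| → ∀ x y : ℝ, |x| ≤ π →
      |y| ≤ τ → ‖Rp N d (x + y * Complex.I)‖ ≤ Sd N d ^ 2 * Real.exp (N * (bet - κ)))
    {ψ ψ' : ℕ → ℂ} {φ φ' z₀ : ℂ} (hψ : ∀ N, ψ N ∈ closedBall (0 : ℂ) R)
    (hψ' : ∀ N, ψ' N ∈ closedBall (0 : ℂ) R) (hφ : φ ∈ closedBall (0 : ℂ) R)
    (hφ' : φ' ∈ closedBall (0 : ℂ) R)
    (hy : ∀ N, |(ψ N).re| ≤ π ∧ |(ψ N).im| ≤ τ) (hy' : ∀ N, |(ψ' N).re| ≤ π ∧ |(ψ' N).im| ≤ τ)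
    (htφ : Tendsto ψ atTop (𝓝 φ))
    (htφ' : Tendsto ψ' atTop (𝓝 φ')) (hz₀ : ‖z₀ - 1 / 4‖ ≤ w / 20) (hcr : D1 φ φ' z₀ = 0)
    (hL0 : 0 < (QQ φ φ' z₀).re) (hL : 2 * bet - κ ≤ (QQ φ φ' z₀).re) :
    Tendsto (fun N : ℕ => Real.log ‖Pool.Agent.W711.HT.ker N (ψ N) (ψ' N)‖ / N) atTop
      (𝓝 (QQ φ φ' z₀).re) := by
  have hwin := window hLS hρR hw hwR hw16 hr hs hru hsu hrr hQ1 hQ2 hψ hψ' hφ hφ' htφ htφ'
    hz₀ hcr
  set W : ℕ → ℂ := fun N => ∑ d ∈ Ico (⌈(1 / 4 - w) * N⌉₊) (⌊(1 / 4 + w) * N⌋₊),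
      Complex.exp (N * (r N ((d : ℂ) / N, ψ N) + r N ((d : ℂ) / N, ψ' N) -
        4 * sn N ((d : ℂ) / N))) with hW
  have hsub : closedBall (0 : ℂ) R ⊆ ball 0 ρ := closedBall_subset_ball hρR
  have hIsub : ∀ N : ℕ, Ico (⌈(1 / 4 - w) * N⌉₊) (⌊(1 / 4 + w) * N⌋₊) ⊆ range N := by
    intro N d hd
    rw [Finset.mem_Ico] at hd
    rw [Finset.mem_range]
    refine hd.2.trans_le ?_
    refine Nat.floor_le_of_le ?_
    have : (0 : ℝ) ≤ N := Nat.cast_nonneg N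
    nlinarith
  -- the window is the part of the kernel
  have hWeq : ∀ᶠ N : ℕ in atTop, W N =
      ∑ d ∈ Ico (⌈(1 / 4 - w) * N⌉₊) (⌊(1 / 4 + w) * N⌋₊),
        Rp N d (ψ N) * Rp N d (ψ' N) / (Sd N d : ℂ) ^ 4 := by
    filter_upwards [hE, eventually_gt_atTop 0] with N h1 h2
    have hN : (0 : ℝ) < N := by exact_mod_cast h2
    rw [hW]
    refine Finset.sum_congr rfl fun d hd => ?_
    rw [Finset.mem_Ico] at hd
    have g1 : (1 / 4 - w) * N ≤ d := Nat.le_of_ceil_le hd.1 |> fun h => h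
    have g2 : (d : ℝ) < (1 / 4 + w) * N := Nat.lt_of_lt_floor hd.2
    have g3 : |(d : ℝ) / N - 1 / 4| < ρ := by
      have g4 : 1 / 4 - w ≤ (d : ℝ) / N := by rwa [le_div_iff₀ hN]
      have g5 : (d : ℝ) / N < 1 / 4 + w := by rwa [div_lt_iff₀ hN]
      rw [abs_lt]
      constructor <;> linarith
    obtain ⟨a1, a2⟩ := h1 d g3
    rw [a1 _ (hsub (hψ N)), a1 _ (hsub (hψ' N)), a2, ← Complex.exp_add, ← Complex.exp_nat_mul,
      ← Complex.exp_sub]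
    congr 1
    push_cast
    ring
  set T : ℕ → ℂ := fun N => Pool.Agent.W711.HT.ker N (ψ N) (ψ' N) - W N with hT
  have hTb : ∀ᶠ N : ℕ in atTop, ‖T N‖ ≤ N * Real.exp (N * ((QQ φ φ' z₀).re - κ)) := by
    have hbig : ∀ᶠ N : ℕ in atTop, 2 / w ≤ (N : ℝ) :=
      tendsto_natCast_atTop_atTop.eventually_ge_atTop _
    filter_upwards [hWeq, hF, hbig, eventually_gt_atTop 0] with N h1 h2 h3 h4
    have hN : (0 : ℝ) < N := by exact_mod_cast h4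
    have hNw : 1 / (N : ℝ) ≤ w / 2 := by
      rw [div_le_iff₀ hw] at h3
      rw [div_le_iff₀ hN]
      linarith
    have e1 : T N = ∑ d ∈ range N \ Ico (⌈(1 / 4 - w) * N⌉₊) (⌊(1 / 4 + w) * N⌋₊),
        Rp N d (ψ N) * Rp N d (ψ' N) / (Sd N d : ℂ) ^ 4 := by
      rw [hT]
      simp only
      rw [h1, Pool.Agent.W711.HT.ker, ← Finset.sum_sdiff (hIsub N)]
      ring
    rw [e1]
    have e2 : ∀ d ∈ range N \ Ico (⌈(1 / 4 - w) * N⌉₊) (⌊(1 / 4 + w) * N⌋₊),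
        ‖Rp N d (ψ N) * Rp N d (ψ' N) / (Sd N d : ℂ) ^ 4‖ ≤
          Real.exp (N * ((QQ φ φ' z₀).re - κ)) := by
      intro d hd
      rw [Finset.mem_sdiff, Finset.mem_range, Finset.mem_Ico, not_and_or, not_le, not_lt] at hd
      obtain ⟨hdN, hd⟩ := hd
      have g1 : w / 2 ≤ |(d : ℝ) / N - 1 / 4| := by
        rcases hd with hd | hd
        · have g2 : (d : ℝ) < (1 / 4 - w) * N := Nat.lt_ceil.1 hd
          have g3 : (d : ℝ) / N < 1 / 4 - w := by rwa [div_lt_iff₀ hN]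
          rw [le_abs]
          right
          linarith
        · have g2 : (1 / 4 + w) * N < (d : ℝ) + 1 :=
            (Nat.lt_floor_add_one _).trans_le (by exact_mod_cast Nat.succ_le_succ hd)
          have g3 : 1 / 4 + w < (d : ℝ) / N + 1 / N := by
            rw [← add_div, lt_div_iff₀ hN]
            exact g2
          rw [le_abs]
          left
          linarith
      have g2 := h2 d hdN g1 (ψ N).re (ψ N).im (hy N).1 (hy N).2
      have g3 := h2 d hdN g1 (ψ' N).re (ψ' N).im (hy' N).1 (hy' N).2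
      rw [← re_im_eq] at g2 g3
      refine (term_le hdN g2 g3).trans (Real.exp_le_exp.2 ?_)
      refine mul_le_mul_of_nonneg_left ?_ hN.le
      linarith
    refine (norm_sum_le _ _).trans ((Finset.sum_le_card_nsmul _ _ _ e2).trans ?_)
    rw [nsmul_eq_mul]
    have e3 : ((range N \ Ico (⌈(1 / 4 - w) * N⌉₊) (⌊(1 / 4 + w) * N⌋₊)).card : ℝ) ≤ N := by
      have := Finset.card_le_card (Finset.sdiff_subset
        (s := range N) (t := Ico (⌈(1 / 4 - w) * N⌉₊) (⌊(1 / 4 + w) * N⌋₊)))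
      rw [Finset.card_range] at this
      exact_mod_cast this
    gcongr
  have hfin := absorb hL0 hκ hwin hTb
  refine hfin.congr fun N => ?_
  rw [hT]
  simp only
  rw [add_sub_cancel]

theorem t_MWK : S_INT → S_RRD → S_LAPSUM → S_FARD → S_SEQ → S_MWK := by
  intro hInt hRRD hLS hFARD hSEQ ρ₀ c C s dl hSD
  obtain ⟨ρi, hρi, hρi8, r, sn, hr0, hs0, hE0, hru0, hsu0⟩ := hInt
  obtain ⟨ρr, hρr, hrr0, -, hder, -⟩ := hRRD
  obtain ⟨Rn, hRn, hnear⟩ := near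
  obtain ⟨ρ, hρdef⟩ : ∃ ρ : ℝ, ρ = min (min ρi ρr) Rn := ⟨_, rfl⟩
  have hρ : 0 < ρ := by rw [hρdef]; exact lt_min (lt_min hρi hρr) hRn
  have hρi' : ρ ≤ ρi := by rw [hρdef]; exact (min_le_left _ _).trans (min_le_left _ _)
  have hρr' : ρ ≤ ρr := by rw [hρdef]; exact (min_le_left _ _).trans (min_le_right _ _)
  have hρn' : ρ ≤ Rn := by rw [hρdef]; exact min_le_right _ _
  have hbi : ball (1 / 4 : ℂ) ρ ⊆ ball (1 / 4) ρi := ball_subset_ball hρi'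
  have hbi0 : ball (0 : ℂ) ρ ⊆ ball 0 ρi := ball_subset_ball hρi'
  have hbr : ball (1 / 4 : ℂ) ρ ⊆ ball (1 / 4) ρr := ball_subset_ball hρr'
  have hbr0 : ball (0 : ℂ) ρ ⊆ ball 0 ρr := ball_subset_ball hρr'
  have hr : ∀ᶠ N : ℕ in atTop, DifferentiableOn ℂ (r N) (ball (1 / 4) ρ ×ˢ ball 0 ρ) := by
    filter_upwards [hr0] with N h
    exact h.mono (Set.prod_mono hbi hbi0)
  have hs : ∀ᶠ N : ℕ in atTop, DifferentiableOn ℂ (sn N) (ball (1 / 4) ρ) := by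
    filter_upwards [hs0] with N h
    exact h.mono hbi
  have hE : ∀ᶠ N : ℕ in atTop, ∀ d : ℕ, |(d : ℝ) / N - 1 / 4| < ρ →
      (∀ ψ ∈ ball (0 : ℂ) ρ, Rp N d ψ = Complex.exp (N * r N ((d : ℂ) / N, ψ))) ∧
      (Sd N d : ℂ) = Complex.exp (N * sn N ((d : ℂ) / N)) := by
    filter_upwards [hE0] with N h d hd
    obtain ⟨h1, h2⟩ := h d (hd.trans_le hρi')
    exact ⟨fun ψ hψ => h1 ψ (hbi0 hψ), h2⟩
  have hru : TendstoUniformlyOn r (fun p => rrF p.1 p.2) atTop (ball (1 / 4) ρ ×ˢ ball 0 ρ) :=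
    hru0.mono (Set.prod_mono hbi hbi0)
  have hsu : TendstoUniformlyOn sn ssF atTop (ball (1 / 4) ρ) := hsu0.mono hbi
  have hrr : DifferentiableOn ℂ (fun p : ℂ × ℂ => rrF p.1 p.2) (ball (1 / 4) ρ ×ˢ ball 0 ρ) :=
    hrr0.mono (Set.prod_mono hbr hbr0)
  have hQ1 : ∀ z ∈ ball (1 / 4 : ℂ) ρ, ∀ ψ ∈ ball (0 : ℂ) ρ, ∀ ψ' ∈ ball (0 : ℂ) ρ,
      HasDerivAt (QQ ψ ψ') (D1 ψ ψ' z) z := by
    intro z hz ψ hψ ψ' hψ'
    have h1 := hder z (hbr hz) ψ (hbr0 hψ)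
    have h2 := hder z (hbr hz) ψ' (hbr0 hψ')
    exact (h1.1.add h2.1).sub (h1.2.2.const_mul 4)
  have hQ2 : ∀ z ∈ ball (1 / 4 : ℂ) ρ, ∀ ψ ∈ ball (0 : ℂ) ρ, ∀ ψ' ∈ ball (0 : ℂ) ρ,
      HasDerivAt (D1 ψ ψ') (D2 (z, ψ, ψ')) z ∧ ‖D2 (z, ψ, ψ') + 8 * π‖ ≤ 2 / 5 * π := by
    intro z hz ψ hψ ψ' hψ'
    rw [mem_ball, dist_eq_norm] at hz
    rw [mem_ball, dist_zero_right] at hψ hψ'
    obtain ⟨h1, h2, h3, h4⟩ := hnear z ψ ψ' (hz.trans_le hρn') (hψ.trans_le hρn')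
      (hψ'.trans_le hρn')
    exact ⟨hasDerivAt_D1 h1 h2 h3, h4⟩
  obtain ⟨R, hRdef⟩ : ∃ R : ℝ, R = ρ / 2 := ⟨_, rfl⟩
  have hR : 0 < R := by rw [hRdef]; positivity
  have hρR : R < ρ := by rw [hRdef]; linarith
  obtain ⟨w, hwdef⟩ : ∃ w : ℝ, w = min (R / 2) (1 / 16) := ⟨_, rfl⟩
  have hw : 0 < w := by rw [hwdef]; exact lt_min (by positivity) (by norm_num)
  have hwR : w ≤ R / 2 := by rw [hwdef]; exact min_le_left _ _
  have hw16 : w ≤ 1 / 16 := by rw [hwdef]; exact min_le_right _ _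
  obtain ⟨κ, hκ, τ, hτ, hF⟩ := hFARD (w / 2) (by positivity)
  have hbet : κ ≤ bet := by
    obtain ⟨N, h1, h2⟩ := (hF.and (eventually_gt_atTop 0)).exists
    have hN : (0 : ℝ) < N := by exact_mod_cast h2
    have h3 := h1 0 h2 (by
      rw [Nat.cast_zero, zero_div, zero_sub, abs_neg, abs_of_pos (by norm_num)]
      linarith) 0 0 (by rw [abs_zero]; exact Real.pi_pos.le) (by rw [abs_zero]; exact hτ.le)
    have e1 : ∀ ψ : ℂ, Rp N 0 ψ = 1 := fun ψ => by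
      unfold Rp
      rw [Finset.range_zero, Finset.prod_empty]
    have e2 : Sd N 0 = 1 := by
      unfold Sd
      rw [Finset.range_zero, Finset.prod_empty]
    rw [e1, e2, norm_one, one_pow, one_mul, ← Real.exp_zero, Real.exp_le_exp] at h3
    have h4 : 0 ≤ bet - κ := by
      by_contra hcon
      have := mul_neg_of_pos_of_neg hN (not_le.1 hcon)
      linarith
    linarith
  have hC := hSD.hC
  have hρ₀ := hSD.hρ.1
  obtain ⟨t, htdef⟩ : ∃ t : ℝ, t = min (min (min (ρ₀ / 2) τ) (min 1 (R / 2)))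
    (min (w / (160 * C)) (κ / (2 * (8 + 256 * C)))) := ⟨_, rfl⟩
  have ht : 0 < t := by
    rw [htdef]
    refine lt_min (lt_min (lt_min (by positivity) hτ) (lt_min one_pos (by positivity)))
      (lt_min (by positivity) (by positivity))
  have ht1 : t ≤ ρ₀ / 2 := by
    rw [htdef]
    exact (min_le_left _ _).trans ((min_le_left _ _).trans (min_le_left _ _))
  have ht2 : t ≤ τ := by
    rw [htdef]
    exact (min_le_left _ _).trans ((min_le_left _ _).trans (min_le_right _ _))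
  have ht3 : t ≤ 1 := by
    rw [htdef]
    exact (min_le_left _ _).trans ((min_le_right _ _).trans (min_le_left _ _))
  have ht4 : t ≤ R / 2 := by
    rw [htdef]
    exact (min_le_left _ _).trans ((min_le_right _ _).trans (min_le_right _ _))
  have ht5 : t ≤ w / (160 * C) := by
    rw [htdef]
    exact (min_le_right _ _).trans (min_le_left _ _)
  have ht6 : t ≤ κ / (2 * (8 + 256 * C)) := by
    rw [htdef]
    exact (min_le_right _ _).trans (min_le_right _ _)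
  clear htdef
  -- the compact set
  have hKmem : ∀ p : ℂ × ℂ, p ∈ (Set.Icc (-t) t ×ℂ Set.Icc (-t) t) ×ˢ
      (Set.Icc (-t) t ×ℂ Set.Icc (-t) t) ↔
      (|p.1.re| ≤ t ∧ |p.1.im| ≤ t) ∧ (|p.2.re| ≤ t ∧ |p.2.im| ≤ t) := by
    intro p
    rw [Set.mem_prod, Complex.mem_reProdIm, Complex.mem_reProdIm, Set.mem_Icc, Set.mem_Icc,
      Set.mem_Icc, Set.mem_Icc, abs_le, abs_le, abs_le, abs_le]
  obtain ⟨K, hKdef⟩ : ∃ K : Set (ℂ × ℂ), K = (Set.Icc (-t) t ×ℂ Set.Icc (-t) t) ×ˢ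
      (Set.Icc (-t) t ×ℂ Set.Icc (-t) t) := ⟨_, rfl⟩
  have hKc : IsCompact K := by
    rw [hKdef]
    exact ((isCompact_Icc.reProdIm isCompact_Icc)).prod (isCompact_Icc.reProdIm isCompact_Icc)
  rw [← hKdef] at hKmem
  have hKR : ∀ z : ℂ, |z.re| ≤ t → |z.im| ≤ t → z ∈ closedBall (0 : ℂ) R := by
    intro z h1 h2
    rw [mem_closedBall, dist_zero_right]
    have := norm_le_two h1 h2
    linarith
  have hKRc : ∀ z : ℂ, |z.re| ≤ t → |z.im| ≤ t → z ∈ Rc ρ₀ ρ₀ := by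
    intro z h1 h2
    exact ⟨by linarith, by linarith⟩
  have htt : t ^ 2 ≤ t := by nlinarith
  have ht4' : t ^ 4 ≤ t := by
    have : t ^ 4 = t ^ 2 * t ^ 2 := by ring
    nlinarith [sq_nonneg t]
  have hdl : ∀ p ∈ K, ‖dl p.1 p.2 - 1 / 4‖ ≤ w / 20 := by
    intro p hp
    obtain ⟨⟨h1, h2⟩, h3, h4⟩ := (hKmem p).1 hp
    refine (hSD.dclose _ (hKRc _ h1 h2) _ (hKRc _ h3 h4)).2.trans ?_
    have h5 := norm_le_two h1 h2
    have h6 := norm_le_two h3 h4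
    have h7 : ‖p.1‖ ^ 2 + ‖p.2‖ ^ 2 ≤ (2 * t) ^ 2 + (2 * t) ^ 2 := by gcongr
    have h8 : C * t ≤ w / 160 := by
      rw [le_div_iff₀ (by positivity)] at ht5
      linarith
    calc C * (‖p.1‖ ^ 2 + ‖p.2‖ ^ 2) ≤ C * ((2 * t) ^ 2 + (2 * t) ^ 2) := by gcongr
      _ = 8 * C * t ^ 2 := by ring
      _ ≤ 8 * C * t := by gcongr
      _ ≤ w / 20 := by linarith
  have hlow : ∀ p ∈ K, 2 * bet - κ / 2 ≤ (s p.1 p.2).re := by
    intro p hp
    obtain ⟨⟨h1, h2⟩, h3, h4⟩ := (hKmem p).1 hp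
    have h := hSD.low _ (hKRc _ h1 h2) _ (hKRc _ h3 h4)
    have h5 := norm_le_two h1 h2
    have h6 := norm_le_two h3 h4
    have h7 : C * (‖p.1‖ + ‖p.2‖) ^ 4 ≤ C * (2 * t + 2 * t) ^ 4 := by gcongr
    have h8 : C * (2 * t + 2 * t) ^ 4 ≤ 256 * C * t := by
      calc C * (2 * t + 2 * t) ^ 4 = 256 * C * t ^ 4 := by ring
        _ ≤ 256 * C * t := by gcongr
    have h9 := (Complex.abs_re_le_norm _).trans (h.trans (h7.trans h8))
    have h10 : ‖(p.1 ^ 2 + p.2 ^ 2) / (4 * (π : ℂ))‖ ≤ 8 * t := by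
      rw [norm_div, norm_mul, Complex.norm_real, Real.norm_of_nonneg Real.pi_pos.le]
      have e1 : ‖(4 : ℂ)‖ = 4 := by norm_num
      rw [e1]
      have e2 : ‖p.1 ^ 2 + p.2 ^ 2‖ ≤ 8 * t := by
        calc ‖p.1 ^ 2 + p.2 ^ 2‖ ≤ ‖p.1‖ ^ 2 + ‖p.2‖ ^ 2 := by
              refine (norm_add_le _ _).trans ?_
              rw [norm_pow, norm_pow]
          _ ≤ (2 * t) ^ 2 + (2 * t) ^ 2 := by gcongr
          _ = 8 * t ^ 2 := by ring
          _ ≤ 8 * t := by gcongr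
      refine (div_le_self (norm_nonneg _) ?_).trans e2
      have := Real.pi_gt_three
      linarith
    have h11 := (Complex.abs_re_le_norm _).trans h10
    have e3 : (s p.1 p.2 - (2 * (bet : ℂ) - (p.1 ^ 2 + p.2 ^ 2) / (4 * (π : ℂ)))).re =
        (s p.1 p.2).re - (2 * bet - ((p.1 ^ 2 + p.2 ^ 2) / (4 * (π : ℂ))).re) := by
      rw [Complex.sub_re, Complex.sub_re, show (2 * (bet : ℂ)) = ((2 * bet : ℝ) : ℂ) by
        push_cast; ring, Complex.ofReal_re]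
    rw [e3] at h9
    have h12 : (8 + 256 * C) * t ≤ κ / 2 := by
      rw [le_div_iff₀ (by positivity)] at ht6
      linarith
    have h13 := (abs_le.1 h9).1
    have h14 := (abs_le.1 h11).2
    linarith
  have hcrit : ∀ p ∈ K, s p.1 p.2 = QQ p.1 p.2 (dl p.1 p.2) ∧ D1 p.1 p.2 (dl p.1 p.2) = 0 := by
    intro p hp
    obtain ⟨⟨h1, h2⟩, h3, h4⟩ := (hKmem p).1 hp
    refine ⟨hSD.scrit _ (hKRc _ h1 h2) _ (hKRc _ h3 h4), ?_⟩
    exact sub_eq_zero.2 (hSD.dcrit _ (hKRc _ h1 h2) _ (hKRc _ h3 h4))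
  have hΦ : ContinuousOn (fun p : ℂ × ℂ => (s p.1 p.2).re) K := by
    refine Complex.continuous_re.comp_continuousOn (hSD.san.continuousOn.mono ?_)
    intro p hp
    obtain ⟨⟨h1, h2⟩, h3, h4⟩ := (hKmem p).1 hp
    exact ⟨hKRc _ h1 h2, hKRc _ h3 h4⟩
  have hmain := hSEQ (ℂ × ℂ) K hKc
    (fun N p => Real.log ‖Pool.Agent.W711.HT.ker N p.1 p.2‖ / N) (fun p => (s p.1 p.2).re) hΦ (by
    intro p p₀ hp₀ hp htp
    have hpi := Real.pi_gt_three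
    have htp1 : Tendsto (fun N => (p N).1) atTop (𝓝 p₀.1) :=
      (continuous_fst.tendsto p₀).comp htp
    have htp2 : Tendsto (fun N => (p N).2) atTop (𝓝 p₀.2) :=
      (continuous_snd.tendsto p₀).comp htp
    have k0 := (hKmem p₀).1 hp₀
    have hsQ := (hcrit p₀ hp₀).1
    have hlo := hlow p₀ hp₀
    rw [hsQ] at hlo
    have := seq hLS hρR hw hwR hw16 hr hs hE hru hsu hrr hQ1 hQ2 hκ hF
      (ψ := fun N => (p N).1) (ψ' := fun N => (p N).2) (φ := p₀.1) (φ' := p₀.2)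
      (z₀ := dl p₀.1 p₀.2)
      (fun N => hKR _ ((hKmem _).1 (hp N)).1.1 ((hKmem _).1 (hp N)).1.2)
      (fun N => hKR _ ((hKmem _).1 (hp N)).2.1 ((hKmem _).1 (hp N)).2.2)
      (hKR _ k0.1.1 k0.1.2) (hKR _ k0.2.1 k0.2.2)
      (fun N => ⟨((hKmem _).1 (hp N)).1.1.trans (by linarith),
        ((hKmem _).1 (hp N)).1.2.trans ht2⟩)
      (fun N => ⟨((hKmem _).1 (hp N)).2.1.trans (by linarith),
        ((hKmem _).1 (hp N)).2.2.trans ht2⟩)
      htp1 htp2 (hdl p₀ hp₀) (hcrit p₀ hp₀).2 (by linarith) (by linarith)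
    rw [hsQ]
    exact this)
  refine ⟨t, ht, by linarith, t, ht, fun ε hε => ?_⟩
  have hmin : 0 < min ε (κ / 2) := lt_min hε (by positivity)
  filter_upwards [hmain _ hmin, eventually_gt_atTop 0] with N h1 h2 ψ hψ ψ' hψ'
  have hN : (0 : ℝ) < N := by exact_mod_cast h2
  have hpK : (ψ, ψ') ∈ K := (hKmem _).2 ⟨⟨hψ.1.le, hψ.2.le⟩, hψ'.1.le, hψ'.2.le⟩
  have h3 := h1 _ hpK
  have h4 := hlow _ hpK
  simp only at h3 h4
  constructor
  · intro hker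
    rw [hker, norm_zero, Real.log_zero, zero_div, zero_sub, abs_neg] at h3
    have h5 := (le_abs_self _).trans (h3.trans (min_le_right _ _))
    linarith
  · have h5 := h3.trans (min_le_left _ _)
    have e1 : Real.log ‖Pool.Agent.W711.HT.ker N ψ ψ'‖ - N * (s ψ ψ').re =
        N * (Real.log ‖Pool.Agent.W711.HT.ker N ψ ψ'‖ / N - (s ψ ψ').re) := by
      field_simp
    rw [e1, abs_mul, abs_of_pos hN, mul_comm]
    gcongr

end Pool.Agent.W469.HT.Mwk
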